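import Pool.Agent.Results.MP_12a1af_nt.AffineSystems

/-!
# MP_d5a1e1_nt: the Erdős–Turán conjecture of every order for sets given by affine systems

`rep A h n` is the number `r_{A,h}(n)` of multisets of `h` elements of `A` with sum `n`.

A family `A i` (`i` in a finite set) of sets of natural numbers is a *solution of a finite affine
system* (`IsSolution E F A`) if `A i = F i ∪ ⋃ (q A_j + d)`, the union being taken over finitely many
edges `(i, j, q, d)`, where the `F i` are finite and the multipliers `q ≥ 2` may all be different.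
Examples: all automatic sets (all multipliers equal), the smallest set which contains a given number
and is closed under given maps `x ↦ q_1 x + d_1, …, x ↦ q_k x + d_k` (Klarner and Rado), and
graph-directed unions of these, in which digits in several bases are mixed.

For every order `h ≥ 2`:

1. Dichotomy: `A i` has at most `C (log (N + 2)) ^ k` elements up to `N` for all `N`, or for every set
   `B ⊇ A i` there is `c > 0` with `r_{B,h}(n) ≥ n ^ c` for infinitely many `n`.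
2. Let `S` be a finite union of sets `A i`, and `B ⊇ S`. If `S` has at least `N ^ ε` elements up to `N`
   for arbitrarily large `N`, then `r_{B,h}(n) ≥ n ^ c` for infinitely many `n`.
3. The Erdős–Turán conjecture of order `h`, in this strong form, holds for every asymptotic basis `B`
   of order `h` which contains `S` and of which, for arbitrarily large `N`, at least the proportion
   `N ^ (ε - 1/h)` of the elements up to `N` lies in `S`; in particular for `B = S`.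
-/

set_option autoImplicit false

namespace Pool.Agent.Results.MP_d5a1e1_nt.AffineSystemsEveryOrder

/-- `r_{A,h}(n)`: the number of multisets of `h` elements of `A` with sum `n`. -/
noncomputable def rep (A : Set ℕ) (h n : ℕ) : ℕ :=
  {M : Multiset ℕ | M.card = h ∧ (∀ x ∈ M, x ∈ A) ∧ M.sum = n}.ncard

/-- `A` is an asymptotic basis of order `h`. -/
def IsBasis (A : Set ℕ) (h : ℕ) : Prop :=
  {n : ℕ | ¬ ∃ M : Multiset ℕ, M.card = h ∧ (∀ x ∈ M, x ∈ A) ∧ M.sum = n}.Finite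

/-- `count S N`: the number of elements of `S` up to `N`. -/
noncomputable def count (S : Set ℕ) (N : ℕ) : ℕ := (S ∩ Set.Iic N).ncard

/-- `A i = F i ∪ ⋃ (q A_j + d)`, the union over all edges `(i, j, q, d)` in `E`. -/
def IsSolution {ι : Type} (E : Finset (ι × ι × ℕ × ℤ)) (F : ι → Finset ℕ) (A : ι → Set ℕ) : Prop :=
  (∀ i, ∀ x ∈ F i, x ∈ A i) ∧
  (∀ i j q d, (i, j, q, d) ∈ E → ∀ y ∈ A j, ∃ x ∈ A i, (x : ℤ) = q * y + d) ∧
  (∀ i, ∀ x ∈ A i, x ∈ F i ∨ ∃ j q d, (i, j, q, d) ∈ E ∧ ∃ y ∈ A j, (x : ℤ) = q * y + d)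

/-- the multisets counted by `rep` form a finite set -/
lemma finite_rep (A : Set ℕ) (h n : ℕ) :
    {M : Multiset ℕ | M.card = h ∧ (∀ x ∈ M, x ∈ A) ∧ M.sum = n}.Finite := by
  have hf : Set.Finite (Set.range fun f : Fin h → Fin (n + 1) =>
      (Multiset.ofList (List.ofFn fun i => (f i : ℕ)))) := Set.finite_range _
  refine hf.subset ?_
  rintro M ⟨hc, -, hs⟩
  obtain ⟨l, rfl⟩ := Quot.exists_rep M
  have hl : l.length = h := by simpa using hc
  subst hl
  have hle : ∀ x ∈ l, x ≤ n := by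
    intro x hx
    have h1 : x ≤ l.sum := List.le_sum_of_mem hx
    have h2 : l.sum = n := by simpa using hs
    omega
  refine ⟨fun i => ⟨l.get i, by have := hle _ (List.get_mem l i); omega⟩, ?_⟩
  simp

/-- from ordered pairs to multisets of `h` elements -/
lemma rep_pair_le {B : Set ℕ} {b h n : ℕ} (hb : b ∈ B) (hh : 2 ≤ h) :
    Pool.Agent.Results.MP_12a1af_nt.AffineSystems.rep B n ≤ 2 * rep B h (n + (h - 2) * b) := by
  classical
  set T := {M : Multiset ℕ | M.card = h ∧ (∀ x ∈ M, x ∈ B) ∧ M.sum = n + (h - 2) * b} with hT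
  have hTf : T.Finite := finite_rep B h _
  set P := {p : ℕ × ℕ | p.1 ∈ B ∧ p.2 ∈ B ∧ p.1 + p.2 = n} with hP
  have hprod : (T ×ˢ (Set.univ : Set Bool)).Finite := hTf.prod Set.finite_univ
  have hmaps : ∀ p ∈ P, ((({p.1, p.2} : Multiset ℕ) + Multiset.replicate (h - 2) b),
      decide (p.1 ≤ p.2)) ∈ T ×ˢ (Set.univ : Set Bool) := by
    rintro ⟨x, y⟩ ⟨hx, hy, hxy⟩
    refine Set.mk_mem_prod ⟨?_, ?_, ?_⟩ (Set.mem_univ _)
    · simp; omega
    · intro z hz
      simp only [Multiset.insert_eq_cons, Multiset.mem_add, Multiset.mem_cons,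
        Multiset.mem_singleton, Multiset.mem_replicate] at hz
      rcases hz with (rfl | rfl) | ⟨-, rfl⟩
      · exact hx
      · exact hy
      · exact hb
    · simp only [Multiset.insert_eq_cons, Multiset.sum_add, Multiset.sum_cons,
        Multiset.sum_singleton, Multiset.sum_replicate, smul_eq_mul]
      simp only at hxy
      omega
  have hinj : Set.InjOn (fun p : ℕ × ℕ => ((({p.1, p.2} : Multiset ℕ) +
      Multiset.replicate (h - 2) b), decide (p.1 ≤ p.2))) P := by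
    rintro ⟨x, y⟩ ⟨-, -, hxy⟩ ⟨u, v⟩ ⟨-, -, huv⟩ he
    simp only [Prod.mk.injEq, add_left_inj, decide_eq_decide] at he hxy huv ⊢
    obtain ⟨h1, h2⟩ := he
    have h3 : x ∈ ({u, v} : Multiset ℕ) := by rw [← h1]; simp
    simp only [Multiset.insert_eq_cons, Multiset.mem_cons, Multiset.mem_singleton] at h3
    rcases h3 with h3 | h3
    · constructor <;> omega
    · constructor <;> omega
  have h1 : P.ncard ≤ (T ×ˢ (Set.univ : Set Bool)).ncard :=
    Set.ncard_le_ncard_of_injOn _ hmaps hinj hprod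
  have h2 : (T ×ˢ (Set.univ : Set Bool)).ncard = T.ncard * 2 := by
    rw [Set.ncard_prod, Set.ncard_univ]
    simp
  calc Pool.Agent.Results.MP_12a1af_nt.AffineSystems.rep B n = P.ncard := rfl
    _ ≤ T.ncard * 2 := by rw [← h2]; exact h1
    _ = 2 * rep B h (n + (h - 2) * b) := by rw [mul_comm]; rfl

/-- power growth of the number of ordered pairs gives power growth for every order -/
lemma growth_transfer {B : Set ℕ} {h : ℕ} (hh : 2 ≤ h)
    (H : ∃ c : ℝ, 0 < c ∧ ∀ N₀ : ℕ, ∃ n : ℕ, N₀ ≤ n ∧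
      (n : ℝ) ^ c ≤ (Pool.Agent.Results.MP_12a1af_nt.AffineSystems.rep B n : ℝ)) :
    ∃ c : ℝ, 0 < c ∧ ∀ N₀ : ℕ, ∃ n : ℕ, N₀ ≤ n ∧ (n : ℝ) ^ c ≤ (rep B h n : ℝ) := by
  obtain ⟨c, hc, H⟩ := H
  obtain ⟨b, hb⟩ : B.Nonempty := by
    obtain ⟨n, hn, h1⟩ := H 1
    by_contra hB
    rw [Set.not_nonempty_iff_eq_empty] at hB
    subst hB
    have h2 : Pool.Agent.Results.MP_12a1af_nt.AffineSystems.rep (∅ : Set ℕ) n = 0 := by
      simp [Pool.Agent.Results.MP_12a1af_nt.AffineSystems.rep]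
    rw [h2] at h1
    have h3 : (0 : ℝ) < (n : ℝ) ^ c := Real.rpow_pos_of_pos (by exact_mod_cast hn) c
    simp at h1
    linarith
  refine ⟨c / 2, by positivity, fun N₀ => ?_⟩
  set D := (h - 2) * b with hD
  obtain ⟨N₁, hN₁⟩ : ∃ N₁ : ℕ, (2 : ℝ) * 2 ^ (c / 2) ≤ (N₁ : ℝ) ^ (c / 2) := by
    have h1 : Filter.Tendsto (fun n : ℕ => (n : ℝ) ^ (c / 2)) Filter.atTop Filter.atTop :=
      (tendsto_rpow_atTop (by positivity)).comp tendsto_natCast_atTop_atTop
    exact (h1.eventually_ge_atTop _).exists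
  obtain ⟨n, hn, h1⟩ := H (max N₀ (max N₁ (D + 1)))
  have hn0 : N₀ ≤ n := (le_max_left _ _).trans hn
  have hn1 : N₁ ≤ n := ((le_max_left _ _).trans (le_max_right _ _)).trans hn
  have hn2 : D + 1 ≤ n := ((le_max_right _ _).trans (le_max_right _ _)).trans hn
  refine ⟨n + D, by omega, ?_⟩
  have h2 : (Pool.Agent.Results.MP_12a1af_nt.AffineSystems.rep B n : ℝ) ≤
      2 * (rep B h (n + D) : ℝ) := by
    exact_mod_cast rep_pair_le (b := b) (n := n) hb hh
  have hnpos : (0 : ℝ) < n := by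
    have : 0 < n := by omega
    exact_mod_cast this
  have h3 : ((n + D : ℕ) : ℝ) ^ (c / 2) ≤ 2 ^ (c / 2) * (n : ℝ) ^ (c / 2) := by
    rw [← Real.mul_rpow (by norm_num) hnpos.le]
    refine Real.rpow_le_rpow (by positivity) ?_ (by positivity)
    have : n + D ≤ 2 * n := by omega
    exact_mod_cast this
  have h4 : (2 : ℝ) * 2 ^ (c / 2) ≤ (n : ℝ) ^ (c / 2) :=
    hN₁.trans (Real.rpow_le_rpow (by positivity) (by exact_mod_cast hn1) (by positivity))
  have h5 : (n : ℝ) ^ c = (n : ℝ) ^ (c / 2) * (n : ℝ) ^ (c / 2) := by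
    rw [← Real.rpow_add hnpos]; congr 1; ring
  have h6 : (0 : ℝ) ≤ (n : ℝ) ^ (c / 2) := by positivity
  nlinarith

/-- an asymptotic basis of order `h` has many elements -/
lemma basis_count {B : Set ℕ} {h : ℕ} (hB : IsBasis B h) :
    ∃ N₀ : ℕ, ∀ N ≥ N₀, N ≤ 2 * count B N ^ h := by
  classical
  obtain ⟨n₀, hn₀⟩ := hB.bddAbove
  refine ⟨2 * n₀ + 2, fun N hN => ?_⟩
  have hfin : (B ∩ Set.Iic N).Finite := (Set.finite_Iic N).subset Set.inter_subset_right
  have h1 : Finset.Icc (n₀ + 1) N ⊆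
      (Fintype.piFinset fun _ : Fin h => hfin.toFinset).image (fun f => ∑ i, f i) := by
    intro n hn
    rw [Finset.mem_Icc] at hn
    have h2 : ∃ M : Multiset ℕ, M.card = h ∧ (∀ x ∈ M, x ∈ B) ∧ M.sum = n := by
      by_contra hcon
      have h3 : n ≤ n₀ := hn₀ hcon
      omega
    obtain ⟨M, hM1, hM2, hM3⟩ := h2
    obtain ⟨l, rfl⟩ := Quot.exists_rep M
    have hl : l.length = h := by simpa using hM1
    subst hl
    have hsum : l.sum = n := by simpa using hM3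
    rw [Finset.mem_image]
    refine ⟨fun i => l.get i, ?_, ?_⟩
    · rw [Fintype.mem_piFinset]
      intro i
      rw [Set.Finite.mem_toFinset]
      have h4 : l.get i ∈ l := List.get_mem l i
      refine ⟨hM2 _ (by simp), ?_⟩
      have h5 : l.get i ≤ l.sum := List.le_sum_of_mem h4
      rw [Set.mem_Iic]
      omega
    · rw [← hsum, ← List.sum_ofFn]
      congr 1
      exact List.ofFn_get l
  have h2 := (Finset.card_le_card h1).trans Finset.card_image_le
  rw [Nat.card_Icc, Fintype.card_piFinset] at h2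
  simp only [Finset.prod_const, Finset.card_univ, Fintype.card_fin] at h2
  rw [← Set.ncard_eq_toFinset_card _ hfin] at h2
  change _ ≤ count B N ^ h at h2
  omega

/-- monotonicity of the number of ordered pairs -/
lemma pairs_mono {S B : Set ℕ} (h : S ⊆ B) (n : ℕ) :
    Pool.Agent.Results.MP_12a1af_nt.AffineSystems.rep S n ≤
      Pool.Agent.Results.MP_12a1af_nt.AffineSystems.rep B n := by
  refine Set.ncard_le_ncard ?_ ?_
  · rintro p ⟨h1, h2, h3⟩
    exact ⟨h h1, h h2, h3⟩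
  · refine ((Set.finite_Iic n).prod (Set.finite_Iic n)).subset ?_
    rintro ⟨x, y⟩ ⟨-, -, h3⟩
    simp only at h3
    exact Set.mk_mem_prod (Set.mem_Iic.2 (by omega)) (Set.mem_Iic.2 (by omega))

/-- **The Erdős–Turán conjecture of every order for sets given by affine systems.** -/
theorem result {ι : Type} [Fintype ι] (E : Finset (ι × ι × ℕ × ℤ)) (F : ι → Finset ℕ)
    (A : ι → Set ℕ) (hE : ∀ i j q d, (i, j, q, d) ∈ E → 2 ≤ q) (hA : IsSolution E F A)
    (h : ℕ) (hh : 2 ≤ h) :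
    (∀ i : ι,
      (∃ (C : ℝ) (k : ℕ), ∀ N : ℕ, (count (A i) N : ℝ) ≤ C * Real.log (N + 2) ^ k) ∨
      ∀ B : Set ℕ, A i ⊆ B → ∃ c : ℝ, 0 < c ∧ ∀ N₀ : ℕ, ∃ n : ℕ, N₀ ≤ n ∧
        (n : ℝ) ^ c ≤ (rep B h n : ℝ)) ∧
    (∀ (I : Set ι) (B : Set ℕ), (⋃ i ∈ I, A i) ⊆ B →
      (∃ ε : ℝ, 0 < ε ∧ ∀ N₀ : ℕ, ∃ N : ℕ, N₀ ≤ N ∧ (N : ℝ) ^ ε ≤ (count (⋃ i ∈ I, A i) N : ℝ)) →
      ∃ c : ℝ, 0 < c ∧ ∀ N₀ : ℕ, ∃ n : ℕ, N₀ ≤ n ∧ (n : ℝ) ^ c ≤ (rep B h n : ℝ)) ∧
    (∀ (I : Set ι) (B : Set ℕ), (⋃ i ∈ I, A i) ⊆ B → IsBasis B h →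
      (∃ ε : ℝ, 0 < ε ∧ ∀ N₀ : ℕ, ∃ N : ℕ, N₀ ≤ N ∧
        (N : ℝ) ^ (ε - 1 / h) * (count B N : ℝ) ≤ (count (⋃ i ∈ I, A i) N : ℝ)) →
      ∃ c : ℝ, 0 < c ∧ ∀ N₀ : ℕ, ∃ n : ℕ, N₀ ≤ n ∧ (n : ℝ) ^ c ≤ (rep B h n : ℝ)) := by
  have hA' : Pool.Agent.Results.MP_12a1af_nt.AffineSystems.IsSolution E F A := hA
  have h2 : ∀ (I : Set ι) (B : Set ℕ), (⋃ i ∈ I, A i) ⊆ B →
      (∃ ε : ℝ, 0 < ε ∧ ∀ N₀ : ℕ, ∃ N : ℕ, N₀ ≤ N ∧ (N : ℝ) ^ ε ≤ (count (⋃ i ∈ I, A i) N : ℝ)) →
      ∃ c : ℝ, 0 < c ∧ ∀ N₀ : ℕ, ∃ n : ℕ, N₀ ≤ n ∧ (n : ℝ) ^ c ≤ (rep B h n : ℝ) := by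
    intro I B hIB hε
    obtain ⟨c, hc, H⟩ :=
      Pool.Agent.Results.MP_12a1af_nt.AffineSystems.growth_of_union hE hA' I hε
    refine growth_transfer hh ⟨c, hc, fun N₀ => ?_⟩
    obtain ⟨n, hn, h1⟩ := H N₀
    exact ⟨n, hn, h1.trans (by exact_mod_cast pairs_mono hIB n)⟩
  refine ⟨fun i => ?_, h2, ?_⟩
  · rcases Pool.Agent.Results.MP_12a1af_nt.AffineSystems.dichotomy hE hA' i with h1 | h1
    · exact Or.inl h1
    · exact Or.inr fun B hB => growth_transfer hh (h1 B hB)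
  · rintro I B hIB hB ⟨ε, hε, H⟩
    refine h2 I B hIB ⟨ε / 2, by positivity, fun N₀ => ?_⟩
    obtain ⟨N₂, hN₂⟩ := basis_count hB
    obtain ⟨N₁, hN₁⟩ : ∃ N₁ : ℕ, ∀ n ≥ N₁, (2 : ℝ) ≤ (n : ℝ) ^ (ε / 2) := by
      have h1 : Filter.Tendsto (fun n : ℕ => (n : ℝ) ^ (ε / 2)) Filter.atTop Filter.atTop :=
        (tendsto_rpow_atTop (by positivity)).comp tendsto_natCast_atTop_atTop
      exact Filter.eventually_atTop.1 (h1.eventually_ge_atTop _)
    obtain ⟨N, hN, h1⟩ := H (max N₀ (max N₂ (max N₁ 1)))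
    have hn0 : N₀ ≤ N := (le_max_left _ _).trans hN
    have hn2 : N₂ ≤ N := ((le_max_left _ _).trans (le_max_right _ _)).trans hN
    have hn1 : N₁ ≤ N :=
      ((le_max_left _ _).trans ((le_max_right _ _).trans (le_max_right _ _))).trans hN
    have hn3 : 1 ≤ N :=
      ((le_max_right _ _).trans ((le_max_right _ _).trans (le_max_right _ _))).trans hN
    refine ⟨N, hn0, ?_⟩
    have hNpos : (0 : ℝ) < N := by exact_mod_cast hn3
    have hh0 : (h : ℝ) ≠ 0 := by positivity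
    have h3 : (N : ℝ) ≤ 2 * (count B N : ℝ) ^ h := by exact_mod_cast hN₂ N hn2
    have h4 : (N : ℝ) ^ (1 / h : ℝ) ≤ 2 * (count B N : ℝ) := by
      have h5 : (N : ℝ) ≤ (2 * (count B N : ℝ)) ^ h := by
        rw [mul_pow]
        have h6 : (2 : ℝ) ≤ 2 ^ h := by
          calc (2 : ℝ) = 2 ^ 1 := by norm_num
            _ ≤ 2 ^ h := pow_le_pow_right₀ (by norm_num) (by omega)
        have h7 : (0 : ℝ) ≤ (count B N : ℝ) ^ h := by positivity
        nlinarith
      calc (N : ℝ) ^ (1 / h : ℝ) ≤ ((2 * (count B N : ℝ)) ^ h) ^ (1 / h : ℝ) :=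
            Real.rpow_le_rpow hNpos.le h5 (by positivity)
        _ = 2 * (count B N : ℝ) := by
            rw [← Real.rpow_natCast, ← Real.rpow_mul (by positivity)]
            rw [mul_one_div_cancel hh0, Real.rpow_one]
    have h5 : (N : ℝ) ^ ε ≤ 2 * (count (⋃ i ∈ I, A i) N : ℝ) := by
      have h6 : (N : ℝ) ^ ε = (N : ℝ) ^ (ε - 1 / h) * (N : ℝ) ^ (1 / h : ℝ) := by
        rw [← Real.rpow_add hNpos]; congr 1; ring
      rw [h6]
      have h7 : (0 : ℝ) ≤ (N : ℝ) ^ (ε - 1 / h) := by positivity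
      nlinarith
    have h6 : (N : ℝ) ^ ε = (N : ℝ) ^ (ε / 2) * (N : ℝ) ^ (ε / 2) := by
      rw [← Real.rpow_add hNpos]; congr 1; ring
    have h7 := hN₁ N hn1
    nlinarith

end Pool.Agent.Results.MP_d5a1e1_nt.AffineSystemsEveryOrder
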