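import Pool.Agent.V11226.ET.Cons

/-!
# MP_d5a1e1_nt: sets with bounded representation function avoid all automatic sets

`rep A h n` is the number `r_{A,h}(n)` of multisets of `h` elements of `A` with sum `n`.

1. Let `S` be any automatic set (a set of natural numbers recognised by a finite automaton from the
   digits in a base `b`), and let `r_{A,h}(n) ≤ K` for `n ≤ h N`. Then `A` contains at most
   `C h! K (N ^ (-δ) |S ∩ [0, N]| + N ^ ε)` of the elements of `S` up to `N`. Here `ε > 0` is
   arbitrary, and `δ > 0` and `C` depend only on `ε`, `b` and the number of states. The same holds,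
   uniformly, for the images `t + f(S ∩ [0, N])` under all functions `f` which are additive on the
   digits in base `b` (for instance `f(x) = c x`, or for `b = 2` and `S = ℕ` the map onto the subset
   sums of an arbitrary sequence of integers), with all shifts `t`.
2. Hence the conjecture of Erdős and Turán of order `h` holds, in the strong form `r_{A,h}(n) ≥ n ^ δ`
   for infinitely many `n`, for every asymptotic basis `A` of order `h` of which, for arbitrarily large `N`, a fixed positive proportion of the elements up to `N`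
   lies in an automatic set `S` with at most `N ^ (1/h + δ)` elements up to `N`. The elements of `A`
   in `S` can be chosen in any way, and nothing is assumed about the other elements of `A`.

Method. Divide the digits into blocks and fix the states of the automaton between the blocks. Then
`S ∩ [0, N]` is a disjoint union of sumsets `S_1 + … + S_m`. If `X ⊆ A` lies in `S_1 + … + S_m`, then the
multisets of `h` elements of `X` are mapped to the sequences of multisets of `h` elements of
`S_1, …, S_m` with at most `K` preimages for each of them, since all the preimages have the same sum.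
So every nontrivial `S_i` contributes a factor less than one to the density of `X`.
-/

set_option autoImplicit false

namespace Pool.Agent.Results.MP_d5a1e1_nt.AutomaticHosts

/-- `r_{A,h}(n)`: the number of multisets of `h` elements of `A` with sum `n`. -/
noncomputable def rep (A : Set ℕ) (h n : ℕ) : ℕ :=
  {M : Multiset ℕ | M.card = h ∧ (∀ x ∈ M, x ∈ A) ∧ M.sum = n}.ncard

/-- `A` is an asymptotic basis of order `h`. -/
def IsBasis (A : Set ℕ) (h : ℕ) : Prop :=
  {n : ℕ | ¬ ∃ M : Multiset ℕ, M.card = h ∧ (∀ x ∈ M, x ∈ A) ∧ M.sum = n}.Finite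

/-- `count S N`: the number of elements of `S` up to `N`. -/
noncomputable def count (S : Set ℕ) (N : ℕ) : ℕ := {x : ℕ | x ∈ S ∧ x ≤ N}.ncard

/-- `S` is recognised by a deterministic automaton with `w` states which reads the digits in base `b`,
the least significant digit first. -/
def Automatic (b w : ℕ) (S : Set ℕ) : Prop :=
  ∃ (δ : Fin w → ℕ → Fin w) (q₀ : Fin w) (F : Set (Fin w)),
    ∀ x, x ∈ S ↔ (Nat.digits b x).foldl δ q₀ ∈ F

/-- `f` is additive on the digits in base `b`. -/
def DigitAdditive (b : ℕ) (f : ℕ → ℕ) : Prop :=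
  ∀ k a r : ℕ, r < b ^ k → f (a * b ^ k + r) = f (a * b ^ k) + f r

/-- The number of elements `y ≤ Y` of `A` in the set `t + f(S ∩ [0, N])`. -/
noncomputable def hits (A S : Set ℕ) (f : ℕ → ℕ) (t N Y : ℕ) : ℕ :=
  {y : ℕ | y ∈ A ∧ y ≤ Y ∧ ∃ x ∈ S, x ≤ N ∧ t + f x = y}.ncard

/-- (1) Power saving for sets with bounded representation function of order `h` in (images of)
automatic sets. (2) The conjecture of order `h`, with `r_{A,h}(n) ≥ n ^ δ` for infinitely many `n`, for
all asymptotic bases of which a fixed positive proportion of the elements lies in an automatic set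
with at most `N ^ (1/h + δ)` elements up to `N`, for arbitrarily large `N`. -/
theorem result (b w : ℕ) (hb : 2 ≤ b) :
    (∀ ε : ℝ, 0 < ε → ∃ δ : ℝ, 0 < δ ∧ ∃ C : ℝ, 0 < C ∧
      ∀ (h K : ℕ) (A S : Set ℕ) (f : ℕ → ℕ) (t N Y : ℕ), 2 ≤ h → (∀ n ≤ h * Y, rep A h n ≤ K) →
        Automatic b w S → DigitAdditive b f → 1 ≤ N →
        (hits A S f t N Y : ℝ) ≤
          C * h.factorial * K * ((N : ℝ) ^ (-δ) * count S N + (N : ℝ) ^ ε)) ∧
    (∀ h : ℕ, 2 ≤ h → ∃ δ : ℝ, 0 < δ ∧ ∀ (A S : Set ℕ) (κ : ℝ), IsBasis A h → Automatic b w S →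
      0 < κ →
      (∀ M : ℕ, ∃ N ≥ M, (count S N : ℝ) ≤ (N : ℝ) ^ (1 / h + δ : ℝ) ∧
        κ * count A N ≤ count (A ∩ S) N) →
      ∀ M : ℕ, ∃ n ≥ M, (n : ℝ) ^ δ ≤ rep A h n) := by
  refine ⟨fun ε hε => Pool.Agent.V11226.ET.power_saving b w hb ε hε, fun h hh => ?_⟩
  obtain ⟨δ, hδ, H⟩ := Pool.Agent.V11226.ET.basis_power b w h hb hh
  refine ⟨δ, hδ, ?_⟩
  intro A S κ hA hS hκ hinf
  obtain ⟨n₀, hn₀⟩ : ∃ n₀ : ℕ, ∀ n ≥ n₀, (Pool.Agent.V11226.ET.msets A h n).Nonempty := by
    obtain ⟨B, hB⟩ := hA.bddAbove
    refine ⟨B + 1, fun n hn => ?_⟩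
    by_contra h0
    have h1 : n ≤ B := by
      refine hB ?_
      intro h2
      exact h0 h2
    omega
  refine H A S κ n₀ hn₀ hS hκ ?_
  intro M
  obtain ⟨N, hN, h1, h2⟩ := hinf M
  refine ⟨N, hN, h1, h2.trans (le_of_eq ?_)⟩
  unfold count
  congr 2
  ext x
  exact ⟨fun h => ⟨h.1.1, h.1.2, h.2⟩, fun h => ⟨⟨h.1, h.2.1⟩, h.2.2⟩⟩

end Pool.Agent.Results.MP_d5a1e1_nt.AutomaticHosts
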