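import Pool.Agent.V11226.ETN.Normal

/-!
# MP_d5a1e1_nt: the digits of the elements of sets with bounded representation function

Fix a base `b`, a length `l`, a tolerance `η > 0` and the order `h`. For a pattern `z = (z_0, z_1, …)`
of blocks of `l` digits call `a` typical (for `z`) if the proportion of the positions `i` at which the
block of `l` digits of `a` is `z_i` differs from `b ^ (-l)` by at most `η`.

1. Let `A` be any set of natural numbers with `r_{A,h}(n) ≤ K` for `n ≤ h N`. Then, for every pattern
   `z`, all but `(C K N ^ (1 - δ)) ^ (1/h)` of the elements of `A` up to `N` are typical; `δ > 0` and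
   `C` depend only on `b`, `l`, `η` and `h`. (A basis of order `h` has at least about `N ^ (1/h)`
   elements up to `N`, so this is a power saving.)
2. Every asymptotic basis `A` of order `h` satisfies the conjecture of Erdős and Turán in the strong
   form `r_{A,h}(n) ≥ n ^ δ` for infinitely many `n`, or all but a proportion `N ^ (-δ)` of its
   elements up to `N` are typical, for all large `N`, uniformly for all patterns `z`.

With constant patterns `z` this says that the elements of a counterexample are, up to a power saving,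
normal in every base (all blocks of digits have nearly the right frequencies); so the conjecture holds
for every basis whose elements omit a digit (or a block of digits) in some base, or only have
unusual frequencies of digits. With general patterns it says that the digits of almost all elements of
a counterexample are uncorrelated with every given sequence (the Hamming distance of their digits
to the digits of any fixed sequence is about `(1 - 1/b) n`).

Method. For a block `w` let `f_w ≥ 1` on the arc `[w / b ^ l, (w + 1) / b ^ l)` be a nonnegative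
trigonometric polynomial with mean at most `b ^ (-l) + η / 2` (a sum of Fejér kernels). Along a
progression of positions `J` with a large difference the frequencies of
`T(a) = ∏ (1 + ε (f_{z_J}(a / b ^ J) - mean))` are all distinct, so that the norm of the coefficients
in the exponent `q = 2h / (2h - 1) > 1` is multiplicative, `(1 + O(ε ^ q)) ^ k`; the `2h`-th moment of
`∑_{a ∈ B} e(a r / L)` is at most `L h h! K |B| ^ h`, since it counts the solutions of
`a_1 + … + a_h ≡ a_1' + … + a_h'`. If `z_J` occurs too often in the elements of `B` then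
`∑_{a ∈ B} T(a) ≥ |B| exp(c ε k)`, and Hölder's inequality gives a power saving because
`ε ^ q` is smaller than `ε`.
-/

set_option autoImplicit false

namespace Pool.Agent.Results.MP_d5a1e1_nt.DigitsOfElements

/-- `r_{A,h}(n)`: the number of multisets of `h` elements of `A` with sum `n`. -/
noncomputable def rep (A : Set ℕ) (h n : ℕ) : ℕ :=
  {M : Multiset ℕ | M.card = h ∧ (∀ x ∈ M, x ∈ A) ∧ M.sum = n}.ncard

/-- `A` is an asymptotic basis of order `h`. -/
def IsBasis (A : Set ℕ) (h : ℕ) : Prop :=
  {n : ℕ | ¬ ∃ M : Multiset ℕ, M.card = h ∧ (∀ x ∈ M, x ∈ A) ∧ M.sum = n}.Finite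

/-- `count S N`: the number of elements of `S` up to `N`. -/
noncomputable def count (S : Set ℕ) (N : ℕ) : ℕ := {x : ℕ | x ∈ S ∧ x ≤ N}.ncard

/-- The number of the positions `i`, less than the number of digits of `a` in base `b`, at which the
block `⌊a / b ^ i⌋ mod b ^ l` of `l` digits of `a` is `z i`. -/
def agreements (b l : ℕ) (z : ℕ → ℕ) (a : ℕ) : ℕ :=
  ((Finset.range (Nat.digits b a).length).filter fun i => a / b ^ i % b ^ l = z i).card

/-- The proportion of the positions at which the block of `l` digits of `a` is `z i` differs from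
`b ^ (-l)` by at most `η`. -/
def Typical (b l : ℕ) (z : ℕ → ℕ) (η : ℝ) (a : ℕ) : Prop :=
  |(agreements b l z a : ℝ) / (Nat.digits b a).length - 1 / (b : ℝ) ^ l| ≤ η

/-- (1) In a set with bounded representation function of order `h` all but `(C K N ^ (1 - δ)) ^ (1/h)`
elements up to `N` are typical for the pattern `z`. (2) An asymptotic basis of order `h` satisfies the
conjecture of Erdős and Turán with `r_{A,h}(n) ≥ n ^ δ` for infinitely many `n`, or all but a
proportion `N ^ (-δ)` of its elements up to `N` are typical, uniformly for all patterns `z`. -/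
theorem result (b l h : ℕ) (hb : 2 ≤ b) (hh : 2 ≤ h) (η : ℝ) (hη : 0 < η) :
    (∃ δ : ℝ, 0 < δ ∧ ∃ C : ℝ, 0 < C ∧ ∀ (z : ℕ → ℕ) (A : Set ℕ) (K N : ℕ),
      (∀ i, z i < b ^ l) → 1 ≤ N → (∀ n ≤ h * N, rep A h n ≤ K) →
      (count {a | a ∈ A ∧ ¬ Typical b l z η a} N : ℝ) ^ h ≤ C * K * (N : ℝ) ^ (1 - δ)) ∧
    (∃ δ : ℝ, 0 < δ ∧ ∀ A : Set ℕ, IsBasis A h →
      (∀ M : ℕ, ∃ n ≥ M, (n : ℝ) ^ δ ≤ rep A h n) ∨
      ∃ N₀ : ℕ, ∀ N ≥ N₀, ∀ z : ℕ → ℕ, (∀ i, z i < b ^ l) →
        (count {a | a ∈ A ∧ ¬ Typical b l z η a} N : ℝ) ≤ (N : ℝ) ^ (-δ) * count A N) := by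
  have hset : ∀ (A : Set ℕ) (z : ℕ → ℕ) (N : ℕ), count {a | a ∈ A ∧ ¬ Typical b l z η a} N =
      ({x | x ∈ A ∧ ¬ Pool.Agent.V11226.ETN.Typical b l z η x ∧ x ≤ N} : Set ℕ).ncard := by
    intro A z N
    unfold count
    congr 1
    ext x
    exact ⟨fun h => ⟨h.1.1, h.1.2, h.2⟩, fun h => ⟨⟨h.1, h.2.1⟩, h.2.2⟩⟩
  constructor
  · obtain ⟨δ, C, hδ, hC, H⟩ := Pool.Agent.V11226.ETN.typical_main b l h hb (by omega) η hη
    refine ⟨δ, hδ, C, hC, ?_⟩
    intro z A K N hz hN hK
    rw [hset]
    exact H z A K N hz hN hK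
  · obtain ⟨δ, hδ, H⟩ := Pool.Agent.V11226.ETN.dichotomy b l h hb (by omega) η hη
    refine ⟨δ, hδ, ?_⟩
    intro A hA
    obtain ⟨n₀, hn₀⟩ : ∃ n₀ : ℕ, ∀ n ≥ n₀, (Pool.Agent.V11226.ET.msets A h n).Nonempty := by
      obtain ⟨B, hB⟩ := hA.bddAbove
      refine ⟨B + 1, fun n hn => ?_⟩
      by_contra h0
      have h1 : n ≤ B := by
        refine hB ?_
        intro h2
        exact h0 h2
      omega
    rcases H A 0.7 (by norm_num) ⟨2 * n₀, fun N hN => by
      have h3 := Pool.Agent.V11226.ET.basis_count A h n₀ hn₀ N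
      set a := ({x | x ∈ A ∧ x ≤ N} : Set ℕ).ncard with ha
      have h4 : (N : ℝ) / 2 ≤ (a : ℝ) ^ h := by
        have h5 : (N : ℝ) + 1 ≤ n₀ + (a : ℝ) ^ h := by exact_mod_cast h3
        have h6 : 2 * (n₀ : ℝ) ≤ N := by exact_mod_cast hN
        linarith
      have h7 : (0.7 : ℝ) ^ h ≤ 1 / 2 := by
        calc (0.7 : ℝ) ^ h ≤ 0.7 ^ 2 := pow_le_pow_of_le_one (by norm_num) (by norm_num) hh
          _ ≤ 1 / 2 := by norm_num
      have hN0 : (0 : ℝ) ≤ N := Nat.cast_nonneg N
      have h8 : (0.7 * (N : ℝ) ^ (1 / h : ℝ)) ^ h ≤ (a : ℝ) ^ h := by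
        rw [mul_pow, one_div, Real.rpow_inv_natCast_pow hN0 (by omega)]
        nlinarith
      exact le_of_pow_le_pow_left₀ (n := h) (by omega) (Nat.cast_nonneg _) h8⟩ with h1 | ⟨N₀, h1⟩
    · exact Or.inl h1
    · right
      refine ⟨N₀, fun N hN z hz => ?_⟩
      rw [hset]
      exact h1 N hN z hz

end Pool.Agent.Results.MP_d5a1e1_nt.DigitsOfElements
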