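import Pool.Agent.V11209.ER.Pow

/-!
# MP_d5a1e1_nt: residues of the number of representations and automatic sequences, prime power orders

Let `h = p ^ k` be a prime power. `rep A h n` is the number `r_{A,h}(n)` of multisets of `h` elements
of `A` with sum `n`, and `orderedRep A h n` is the number `R_{A,h}(n)` of `h`-tuples of elements of `A`
with sum `n`. Let `A` be an asymptotic basis of order `h`, or any set with at least `c N ^ (1/h)`
elements up to `N` for some `c > 0` and all large `N`.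

1. Let `P` be an automatic set (recognised by a finite automaton from the digits in some base `b`). If,
   for arbitrarily large `N`, the set `P` predicts correctly whether `p` divides `R_{A,h}(h m)`, for all
   `m ≤ N` with at most `(1 - κ) |A ∩ [0, N]|` exceptions, for some fixed `κ > 0`, then
   `r_{A,h}(n) ≥ n ^ δ` for infinitely many `n`, so that `r_{A,h}` is unbounded. The trivial prediction
   (`p` divides all these numbers) has exactly `|A ∩ [0, N]|` errors.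
2. Hence, if the residues modulo `p` of `R_{A,h}` are eventually the residues of an automatic sequence,
   then `r_{A,h}(n) ≥ n ^ δ` for infinitely many `n`; and `R_{A,h}` itself is never, up to
   finitely many terms, an automatic sequence.

Method. The cyclic group of order `h` acts on the `h`-tuples with sum `n`, and the fixed points are the
constant tuples, so that `R_{A,h}(h m)` is congruent modulo `p` to `1` if `m ∈ A` and to `0` otherwise. So
a prediction with few errors gives an automatic set `S = {m | h m ∈ P}` which contains a fixed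
proportion of the elements of `A` and has at most `2 |A ∩ [0, N]|` elements up to `N`, and the power
saving for sets with bounded representation function in automatic sets is applied
(`Pool.Agent.V11226.ET.Main`, see the result `AutomaticHosts`). The case `h = 2` is the result
`MP_12a1af_nt.ParityOfRepresentations`.
-/

set_option autoImplicit false

open Filter

namespace Pool.Agent.Results.MP_d5a1e1_nt.ResiduesOfRepresentations

/-- `r_{A,h}(n)`: the number of multisets of `h` elements of `A` with sum `n`. -/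
noncomputable def rep (A : Set ℕ) (h n : ℕ) : ℕ :=
  {M : Multiset ℕ | M.card = h ∧ (∀ x ∈ M, x ∈ A) ∧ M.sum = n}.ncard

/-- `R_{A,h}(n)`: the number of `h`-tuples of elements of `A` with sum `n`. -/
noncomputable def orderedRep (A : Set ℕ) (h n : ℕ) : ℕ :=
  {f : Fin h → ℕ | (∀ i, f i ∈ A) ∧ ∑ i, f i = n}.ncard

/-- `A` is an asymptotic basis of order `h`. -/
def IsBasis (A : Set ℕ) (h : ℕ) : Prop :=
  {n : ℕ | ¬ ∃ M : Multiset ℕ, M.card = h ∧ (∀ x ∈ M, x ∈ A) ∧ M.sum = n}.Finite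

/-- `count S N`: the number of elements of `S` up to `N`. -/
noncomputable def count (S : Set ℕ) (N : ℕ) : ℕ := {x : ℕ | x ∈ S ∧ x ≤ N}.ncard

/-- `A` is an asymptotic basis of order `h`, or it has at least `c N ^ (1/h)` elements up to `N`, for
some `c > 0` and all large `N`. -/
def Hypothesis (A : Set ℕ) (h : ℕ) : Prop :=
  IsBasis A h ∨ ∃ c : ℝ, 0 < c ∧ ∀ᶠ N : ℕ in atTop, c * (N : ℝ) ^ (1 / h : ℝ) ≤ count A N

/-- `P` is recognised by a deterministic automaton with `w` states which reads the digits in base `b`,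
the least significant digit first. -/
def Automatic (b w : ℕ) (P : Set ℕ) : Prop :=
  ∃ (δ : Fin w → ℕ → Fin w) (q₀ : Fin w) (F : Set (Fin w)),
    ∀ x, x ∈ P ↔ (Nat.digits b x).foldl δ q₀ ∈ F

/-- The sequence `ρ` is the output of such an automaton. -/
def AutomaticSequence (b w : ℕ) (ρ : ℕ → ℕ) : Prop :=
  ∃ (δ : Fin w → ℕ → Fin w) (q₀ : Fin w) (out : Fin w → ℕ),
    ∀ x, ρ x = out ((Nat.digits b x).foldl δ q₀)

/-- The number of `m ≤ N` for which the set `P` predicts wrongly whether `p` divides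
`R_{A,h}(h m)`. -/
noncomputable def errors (A P : Set ℕ) (p h N : ℕ) : ℕ :=
  {m : ℕ | m ≤ N ∧ ¬ (¬ p ∣ orderedRep A h (h * m) ↔ h * m ∈ P)}.ncard

theorem rep_le (A : Set ℕ) (h n : ℕ) : rep A h n ≤ orderedRep A h n := by
  classical
  have hfin := Pool.Agent.V11209.ER.tup_finite A h n
  refine le_trans (Set.ncard_le_ncard (t := (fun f : Fin h → ℕ => (List.ofFn f : Multiset ℕ)) ''
    Pool.Agent.V11209.ER.tup A h n) ?_ (hfin.image _)) (Set.ncard_image_le hfin)
  rintro s ⟨hs1, hs2, hs3⟩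
  obtain ⟨l, rfl⟩ := Quot.exists_rep s
  change Multiset.card (l : Multiset ℕ) = h at hs1
  change Multiset.sum (l : Multiset ℕ) = n at hs3
  rw [Multiset.coe_card] at hs1
  rw [Multiset.sum_coe] at hs3
  subst hs1
  refine ⟨fun i => l.get i, ⟨fun i => hs2 _ (by exact List.get_mem l i), ?_⟩, ?_⟩
  · rw [← hs3]
    simp only [List.get_eq_getElem]
    exact (Fin.sum_univ_getElem l)
  · show ((List.ofFn fun i => l.get i : List ℕ) : Multiset ℕ) = (l : Multiset ℕ)
    rw [List.ofFn_get]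

theorem growth {A : Set ℕ} {h : ℕ} (hh : 2 ≤ h) (hA : Hypothesis A h) :
    ∃ c : ℝ, 0 < c ∧ ∀ᶠ N : ℕ in atTop, c * (N : ℝ) ^ (1 / h : ℝ) ≤ count A N := by
  rcases hA with hA | hA
  · obtain ⟨n₀, hn₀⟩ : ∃ n₀ : ℕ, ∀ n ≥ n₀, (Pool.Agent.V11226.ET.msets A h n).Nonempty := by
      obtain ⟨B, hB⟩ := hA.bddAbove
      refine ⟨B + 1, fun n hn => ?_⟩
      by_contra h0
      have h1 : n ≤ B := by
        refine hB ?_
        intro h2
        exact h0 h2
      omega
    refine ⟨0.7, by norm_num, eventually_atTop.2 ⟨2 * n₀, fun N hN2 => ?_⟩⟩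
    have h3 := Pool.Agent.V11226.ET.basis_count A h n₀ hn₀ N
    change N + 1 ≤ n₀ + count A N ^ h at h3
    set a := count A N with ha
    have h4 : (N : ℝ) / 2 ≤ (a : ℝ) ^ h := by
      have h5 : (N : ℝ) + 1 ≤ n₀ + (a : ℝ) ^ h := by exact_mod_cast h3
      have h6 : 2 * (n₀ : ℝ) ≤ N := by exact_mod_cast hN2
      linarith
    have h7 : (0.7 : ℝ) ^ h ≤ 1 / 2 := by
      calc (0.7 : ℝ) ^ h ≤ 0.7 ^ 2 := pow_le_pow_of_le_one (by norm_num) (by norm_num) hh
        _ ≤ 1 / 2 := by norm_num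
    have hN0 : (0 : ℝ) ≤ N := Nat.cast_nonneg N
    have h8 : (0.7 * (N : ℝ) ^ (1 / h : ℝ)) ^ h ≤ (a : ℝ) ^ h := by
      rw [mul_pow, one_div, Real.rpow_inv_natCast_pow hN0 (by omega)]
      nlinarith
    exact le_of_pow_le_pow_left₀ (by omega) (Nat.cast_nonneg _) h8
  · exact hA

/-- (1) Predictions of the divisibility of `R_{A,h}(h m)` by `p` with few errors. (2) The residues
modulo `p` of `R_{A,h}`. (3) `R_{A,h}` is not an automatic sequence. Here `h = p ^ k`. -/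
theorem result (b w p k : ℕ) (hb : 2 ≤ b) (hp : p.Prime) (hk : 1 ≤ k) :
    (∃ δ : ℝ, 0 < δ ∧ ∀ (A P : Set ℕ) (κ : ℝ), Hypothesis A (p ^ k) → Automatic b w P → 0 < κ →
      (∀ M : ℕ, ∃ N ≥ M, (errors A P p (p ^ k) N : ℝ) ≤ (1 - κ) * count A N) →
      ∀ M : ℕ, ∃ n ≥ M, (n : ℝ) ^ δ ≤ rep A (p ^ k) n) ∧
    (∃ δ : ℝ, 0 < δ ∧ ∀ (A : Set ℕ) (ρ : ℕ → ℕ), Hypothesis A (p ^ k) → AutomaticSequence b w ρ →
      (∀ᶠ n in atTop, orderedRep A (p ^ k) n ≡ ρ n [MOD p]) →
      ∀ M : ℕ, ∃ n ≥ M, (n : ℝ) ^ δ ≤ rep A (p ^ k) n) ∧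
    (∀ A : Set ℕ, Hypothesis A (p ^ k) →
      ¬ ∃ ρ : ℕ → ℕ, AutomaticSequence b w ρ ∧ ∀ᶠ n in atTop, orderedRep A (p ^ k) n = ρ n) := by
  have hh1 : 1 ≤ p ^ k := Nat.one_le_pow _ _ hp.pos
  have hh2 : 2 ≤ p ^ k := by
    calc 2 ≤ p := hp.two_le
      _ = p ^ 1 := (pow_one p).symm
      _ ≤ p ^ k := Nat.pow_le_pow_right hp.pos hk
  have main : ∃ δ : ℝ, 0 < δ ∧ ∀ (A P : Set ℕ) (κ : ℝ), Hypothesis A (p ^ k) → Automatic b w P →
      0 < κ → (∀ M : ℕ, ∃ N ≥ M, (errors A P p (p ^ k) N : ℝ) ≤ (1 - κ) * count A N) →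
      ∀ M : ℕ, ∃ n ≥ M, (n : ℝ) ^ δ ≤ rep A (p ^ k) n := by
    obtain ⟨δ, hδ, H⟩ := Pool.Agent.V11209.ER.power b w p k hb hp hk
    refine ⟨δ, hδ, fun A P κ hA hP hκ h => ?_⟩
    obtain ⟨c, hc, hg⟩ := growth hh2 hA
    exact H A P κ c hP hκ hc hg h
  have second : ∃ δ : ℝ, 0 < δ ∧ ∀ (A : Set ℕ) (ρ : ℕ → ℕ), Hypothesis A (p ^ k) →
      AutomaticSequence b w ρ → (∀ᶠ n in atTop, orderedRep A (p ^ k) n ≡ ρ n [MOD p]) →
      ∀ M : ℕ, ∃ n ≥ M, (n : ℝ) ^ δ ≤ rep A (p ^ k) n := by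
    obtain ⟨δ, hδ, H⟩ := main
    refine ⟨δ, hδ, ?_⟩
    rintro A ρ hA ⟨d, q₀, out, hρ⟩ hev
    obtain ⟨n₀, hn₀⟩ := eventually_atTop.1 hev
    obtain ⟨c, hc, hg⟩ := growth hh2 hA
    refine H A {x | ¬ p ∣ ρ x} (1 / 2) hA ⟨d, q₀, {q | ¬ p ∣ out q}, fun x => by
      show ¬ p ∣ ρ x ↔ ¬ p ∣ out _
      rw [hρ]⟩ (by norm_num) ?_
    have hlarge : ∀ᶠ N : ℕ in atTop, 2 * ((n₀ : ℝ) + 1) ≤ c * (N : ℝ) ^ (1 / (p ^ k : ℕ) : ℝ) := by
      have h0 : (0 : ℝ) < 1 / (p ^ k : ℕ) := by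
        have : (0 : ℝ) < (p ^ k : ℕ) := by exact_mod_cast hh1
        positivity
      exact (Tendsto.const_mul_atTop hc
        ((tendsto_rpow_atTop h0).comp tendsto_natCast_atTop_atTop)).eventually_ge_atTop _
    obtain ⟨N₁, hN₁⟩ := eventually_atTop.1 (hlarge.and hg)
    intro M
    refine ⟨max M N₁, le_max_left _ _, ?_⟩
    have h1 : errors A {x | ¬ p ∣ ρ x} p (p ^ k) (max M N₁) ≤ n₀ + 1 := by
      unfold errors
      refine (Set.ncard_le_ncard (t := ((Finset.range (n₀ + 1) : Finset ℕ) : Set ℕ)) ?_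
        (Finset.finite_toSet _)).trans (by rw [Set.ncard_coe_finset, Finset.card_range])
      rintro m ⟨-, hm⟩
      rw [Finset.mem_coe, Finset.mem_range]
      by_contra h2
      refine hm ?_
      have h3 : n₀ ≤ p ^ k * m := by
        calc n₀ ≤ m := by omega
          _ = 1 * m := (one_mul m).symm
          _ ≤ p ^ k * m := Nat.mul_le_mul_right _ hh1
      have h4 := hn₀ _ h3
      show ¬ p ∣ _ ↔ ¬ p ∣ _
      rw [h4.dvd_iff (dvd_refl p)]
    obtain ⟨h2, h3⟩ := hN₁ (max M N₁) (le_max_right _ _)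
    have h4 : (errors A {x | ¬ p ∣ ρ x} p (p ^ k) (max M N₁) : ℝ) ≤ n₀ + 1 := by exact_mod_cast h1
    linarith
  refine ⟨main, second, ?_⟩
  rintro A hA ⟨ρ, hρ, hev⟩
  obtain ⟨δ, hδ, H⟩ := second
  have hpow := H A ρ hA hρ (hev.mono fun n hn => by rw [hn])
  obtain ⟨n₀, hn₀⟩ := eventually_atTop.1 hev
  obtain ⟨d, q₀, out, hρ⟩ := hρ
  -- an automatic sequence is bounded
  set B : ℕ := ∑ q, out q with hB
  have hbound : ∀ n ≥ n₀, rep A (p ^ k) n ≤ B := by
    intro n hn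
    refine (rep_le A (p ^ k) n).trans ?_
    rw [hn₀ n hn, hρ, hB]
    exact Finset.single_le_sum (f := out) (fun _ _ => Nat.zero_le _) (Finset.mem_univ _)
  have hlarge : ∀ᶠ N : ℕ in atTop, (B : ℝ) + 1 ≤ (N : ℝ) ^ δ :=
    ((tendsto_rpow_atTop hδ).comp tendsto_natCast_atTop_atTop).eventually_ge_atTop _
  obtain ⟨M₁, hM₁⟩ := eventually_atTop.1 hlarge
  obtain ⟨n, hn, h1⟩ := hpow (max M₁ n₀)
  have h2 := hM₁ n (le_trans (le_max_left _ _) hn)
  have h3 := hbound n (le_trans (le_max_right _ _) hn)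
  have h4 : (rep A (p ^ k) n : ℝ) ≤ B := by exact_mod_cast h3
  linarith

end Pool.Agent.Results.MP_d5a1e1_nt.ResiduesOfRepresentations
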